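import Mathlib

set_option autoImplicit false

namespace Pool.Agent.H332R2.Lit

/-- state of the Euclidean algorithm on `(1, α)` -/
structure St (α : ℝ) where
  q' : ℤ
  q : ℤ
  p' : ℤ
  p : ℤ
  hq' : 0 ≤ q'
  hq : 1 ≤ q
  hqq : q' ≤ q
  det : q * p' - q' * p = 1 ∨ q * p' - q' * p = -1
  sgn : (q' * α - p') * (q * α - p) < 0
  lt : |q * α - p| < |q' * α - p'|

variable {α : ℝ}

noncomputable def St.a (s : St α) : ℤ := ⌊|s.q' * α - s.p'| / |s.q * α - s.p|⌋

lemma St.D_ne (s : St α) : s.q * α - s.p ≠ 0 := by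
  intro h
  have := s.sgn
  rw [h, mul_zero] at this
  exact lt_irrefl _ this

lemma St.a_pos (s : St α) : 1 ≤ s.a := by
  unfold St.a
  rw [Int.le_floor]
  have h := abs_pos.2 s.D_ne
  rw [le_div_iff₀ h]
  simpa using s.lt.le

lemma St.a_le (s : St α) : (s.a : ℝ) * |s.q * α - s.p| ≤ |s.q' * α - s.p'| := by
  have h := abs_pos.2 s.D_ne
  rw [← le_div_iff₀ h]
  exact Int.floor_le _

/-- sum of an element and a multiple of an element of opposite sign -/
lemma opp {x y a : ℝ} (h : x * y < 0) (ha : a * |y| ≤ |x|) : |x + a * y| = |x| - a * |y| := by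
  rcases mul_neg_iff.1 h with ⟨hx, hy⟩ | ⟨hx, hy⟩
  · rw [abs_of_pos hx, abs_of_neg hy] at *
    rw [abs_of_nonneg (by linarith)]; ring
  · rw [abs_of_neg hx, abs_of_pos hy] at *
    rw [abs_of_nonpos (by linarith)]; ring

lemma St.next_ne (hα : Irrational α) (s : St α) :
    ((s.a * s.q + s.q' : ℤ) : ℝ) * α - (s.a * s.p + s.p' : ℤ) ≠ 0 := by
  intro h
  have h1 : (1 : ℤ) ≤ s.a * s.q + s.q' := by
    have := s.a_pos; have := s.hq; have := s.hq'; nlinarith
  have h2 : ((s.a * s.q + s.q' : ℤ) : ℝ) ≠ 0 := by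
    have : (1 : ℝ) ≤ ((s.a * s.q + s.q' : ℤ) : ℝ) := by exact_mod_cast h1
    linarith
  apply hα
  refine ⟨((s.a * s.p + s.p' : ℤ) : ℚ) / ((s.a * s.q + s.q' : ℤ) : ℚ), ?_⟩
  have h3 : α = ((s.a * s.p + s.p' : ℤ) : ℝ) / ((s.a * s.q + s.q' : ℤ) : ℝ) := by
    rw [eq_div_iff h2]; linarith
  have h4 : ((((s.a * s.p + s.p' : ℤ) : ℚ) / ((s.a * s.q + s.q' : ℤ) : ℚ) : ℚ) : ℝ)
      = ((s.a * s.p + s.p' : ℤ) : ℝ) / ((s.a * s.q + s.q' : ℤ) : ℝ) := by push_cast; rfl
  rw [h4]; exact h3.symm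

lemma St.next_abs (s : St α) :
    |((s.a * s.q + s.q' : ℤ) : ℝ) * α - (s.a * s.p + s.p' : ℤ)|
      = |s.q' * α - s.p'| - s.a * |s.q * α - s.p| := by
  rw [← opp s.sgn s.a_le]
  congr 1; push_cast; ring

noncomputable def St.next (hα : Irrational α) (s : St α) : St α where
  q' := s.q
  q := s.a * s.q + s.q'
  p' := s.p
  p := s.a * s.p + s.p'
  hq' := by have := s.hq; omega
  hq := by have := s.a_pos; have := s.hq; have := s.hq'; nlinarith
  hqq := by have := s.a_pos; have := s.hq; have := s.hq'; nlinarith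
  det := by
    have h : (s.a * s.q + s.q') * s.p - s.q * (s.a * s.p + s.p')
        = -(s.q * s.p' - s.q' * s.p) := by ring
    rw [h]
    rcases s.det with h | h <;> rw [h] <;> simp
  sgn := by
    have h1 := s.next_abs
    have h2 := abs_pos.2 (s.next_ne hα)
    rw [h1] at h2
    have h3 : (s.q * α - s.p) * (((s.a * s.q + s.q' : ℤ) : ℝ) * α - (s.a * s.p + s.p' : ℤ))
        = (s.q' * α - s.p') * (s.q * α - s.p) + s.a * (s.q * α - s.p) ^ 2 := by
      push_cast; ring
    rw [h3]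
    have h4 : (s.q' * α - s.p') * (s.q * α - s.p) = -(|s.q' * α - s.p'| * |s.q * α - s.p|) := by
      rw [← abs_mul, abs_of_neg s.sgn]; ring
    rw [h4, ← sq_abs (s.q * α - s.p)]
    have h5 := abs_pos.2 s.D_ne
    nlinarith
  lt := by
    rw [s.next_abs]
    have h5 := abs_pos.2 s.D_ne
    have h6 : |s.q' * α - s.p'| / |s.q * α - s.p| < s.a + 1 := Int.lt_floor_add_one _
    rw [div_lt_iff₀ h5] at h6
    linarith

noncomputable def St.init (hα : Irrational α) : St α where
  q' := 0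
  q := 1
  p' := -1
  p := ⌊α⌋ + 1
  hq' := le_rfl
  hq := le_rfl
  hqq := by norm_num
  det := by right; ring
  sgn := by
    push_cast
    have h := Int.lt_floor_add_one α
    nlinarith
  lt := by
    push_cast
    have h := Int.lt_floor_add_one α
    have h2 : (⌊α⌋ : ℝ) < α := lt_of_le_of_ne (Int.floor_le α) (fun hc => hα ⟨⌊α⌋, by simpa using hc⟩)
    rw [show (0 * α - -1 : ℝ) = 1 by ring, abs_one, abs_lt]
    constructor <;> linarith

/-- Continued fraction data of an irrational number. -/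
theorem cf_data (hα : Irrational α) :
    ∃ (q p a : ℕ → ℤ),
      (∀ k, 0 ≤ q k) ∧ (∀ k, 1 ≤ q (k + 1)) ∧ (∀ k : ℕ, (k : ℤ) ≤ q k + 1) ∧ (∀ k, 1 ≤ a k) ∧
      (∀ k, q (k + 2) = a k * q (k + 1) + q k) ∧
      (∀ k, p (k + 2) = a k * p (k + 1) + p k) ∧
      (∀ k, (q k * α - p k) * (q (k + 1) * α - p (k + 1)) < 0) ∧
      (∀ k, (q (k + 1) : ℝ) * |q k * α - p k| + q k * |q (k + 1) * α - p (k + 1)| = 1) ∧
      (∀ k, (a k : ℝ) * |q (k + 1) * α - p (k + 1)| ≤ |q k * α - p k|) := by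
  let s : ℕ → St α := fun n => Nat.rec (St.init hα) (fun _ t => t.next hα) n
  have hq1 : ∀ k, (s (k + 1)).q' = (s k).q := fun k => rfl
  have hp1 : ∀ k, (s (k + 1)).p' = (s k).p := fun k => rfl
  have hq2 : ∀ k, (s (k + 1)).q = (s k).a * (s k).q + (s k).q' := fun k => rfl
  have hp2 : ∀ k, (s (k + 1)).p = (s k).a * (s k).p + (s k).p' := fun k => rfl
  have hgrow : ∀ k : ℕ, (k : ℤ) ≤ (s k).q := by
    intro k
    induction k with
    | zero => have := (s 0).hq; push_cast; omega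
    | succ k ih =>
      rw [hq2]
      push_cast
      cases k with
      | zero =>
        have := (s 0).a_pos; have := (s 0).hq; have := (s 0).hq'
        push_cast; nlinarith
      | succ k =>
        have h1 := (s (k + 1)).a_pos
        have h2 := (s (k + 1)).hq
        have h3 : 1 ≤ (s (k + 1)).q' := by rw [hq1]; exact (s k).hq
        nlinarith
  refine ⟨fun k => (s k).q', fun k => (s k).p', fun k => (s k).a, fun k => (s k).hq',
    fun k => (s k).hq, ?_, fun k => (s k).a_pos, ?_, ?_, ?_, ?_, ?_⟩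
  · intro k
    cases k with
    | zero => have := (s 0).hq'; push_cast; omega
    | succ k =>
      have := hgrow k
      simp only [hq1]
      push_cast; omega
  · intro k
    simp only [hq1]
    exact hq2 k
  · intro k
    simp only [hp1]
    exact hp2 k
  · intro k
    simp only [hq1, hp1]
    exact (s k).sgn
  · intro k
    simp only [hq1, hp1]
    have hq := (s k).hq
    have hq' := (s k).hq'
    have hqr : (0 : ℝ) < (s k).q := by exact_mod_cast (by omega : 0 < (s k).q)
    have hqr' : (0 : ℝ) ≤ (s k).q' := by exact_mod_cast hq'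
    have h1 : ((s k).q : ℝ) * |(s k).q' * α - (s k).p'| + (s k).q' * |(s k).q * α - (s k).p|
        = |((s k).q : ℝ) * ((s k).q' * α - (s k).p') - (s k).q' * ((s k).q * α - (s k).p)| := by
      rcases mul_neg_iff.1 (s k).sgn with ⟨hx, hy⟩ | ⟨hx, hy⟩
      · rw [abs_of_pos hx, abs_of_neg hy, abs_of_pos (by nlinarith)]; ring
      · rw [abs_of_neg hx, abs_of_pos hy, abs_of_neg (by nlinarith)]; ring
    rw [h1]
    have h2 : ((s k).q : ℝ) * ((s k).q' * α - (s k).p') - (s k).q' * ((s k).q * α - (s k).p)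
        = -(((s k).q * (s k).p' - (s k).q' * (s k).p : ℤ) : ℝ) := by push_cast; ring
    rw [h2]
    rcases (s k).det with h | h <;> rw [h] <;> simp
  · intro k
    simp only [hq1, hp1]
    exact (s k).a_le

end Pool.Agent.H332R2.Lit
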