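import Mathlib

set_option autoImplicit false

namespace Pool.Agent.H332R2.Lit

open Finset Complex

/-- `e(t) = exp(2 pi i t)` -/
noncomputable def e (t : ℝ) : ℂ := Complex.exp (2 * Real.pi * t * Complex.I)

lemma e_add (s t : ℝ) : e (s + t) = e s * e t := by
  unfold e
  rw [← Complex.exp_add]; congr 1; push_cast; ring

lemma e_zero : e 0 = 1 := by simp [e]

lemma norm_e (t : ℝ) : ‖e t‖ = 1 := by
  unfold e
  rw [show (2 * Real.pi * t * Complex.I : ℂ) = ((2 * Real.pi * t : ℝ) : ℂ) * Complex.I by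
    push_cast; ring]
  exact Complex.norm_exp_ofReal_mul_I _

lemma conj_e (t : ℝ) : (starRingEnd ℂ) (e t) = e (-t) := by
  unfold e
  rw [← Complex.exp_conj]
  congr 1
  simp only [map_mul, Complex.conj_I, Complex.conj_ofReal, map_ofNat]
  push_cast; ring

lemma e_nat_mul (n : ℕ) (t : ℝ) : e (n * t) = e t ^ n := by
  unfold e
  rw [← Complex.exp_nat_mul]; congr 1; push_cast; ring

/-- `|1 - e(t)| >= 4 ||t||`. -/
lemma norm_one_sub_e (t : ℝ) : 4 * |t - round t| ≤ ‖1 - e t‖ := by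
  have h1 : e t = e (t - round t) := by
    unfold e
    have : (2 * Real.pi * ((t : ℝ) : ℂ) * Complex.I : ℂ)
        = 2 * Real.pi * ((t - round t : ℝ) : ℂ) * Complex.I + (round t : ℤ) * (2 * Real.pi * Complex.I) := by
      push_cast; ring
    rw [this, Complex.exp_add, Complex.exp_int_mul_two_pi_mul_I, mul_one]
  rw [h1]
  set u := t - round t with hu
  have hu1 : |u| ≤ 1 / 2 := abs_sub_round t
  -- ‖1 - e u‖ = 2 |sin (π u)|
  have h2 : ‖1 - e u‖ = 2 * |Real.sin (Real.pi * u)| := by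
    unfold e
    rw [norm_sub_rev]
    rw [show (2 * Real.pi * u * Complex.I : ℂ) = Complex.I * ((2 * Real.pi * u : ℝ) : ℂ) by
      push_cast; ring]
    rw [Complex.norm_exp_I_mul_ofReal_sub_one]
    rw [norm_mul, Real.norm_eq_abs, Real.norm_eq_abs]
    rw [show 2 * Real.pi * u / 2 = Real.pi * u by ring]
    norm_num
  rw [h2]
  have h3 : 2 * |u| ≤ |Real.sin (Real.pi * u)| := by
    have h4 : |Real.sin (Real.pi * u)| = |Real.sin (Real.pi * |u|)| := by
      rcases abs_cases u with h | h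
      · rw [h.1]
      · rw [h.1]; rw [mul_neg, Real.sin_neg, abs_neg]
    rw [h4]
    have h5 := Real.mul_le_sin (x := Real.pi * |u|) (by positivity) (by nlinarith [Real.pi_pos])
    have h6 : 2 / Real.pi * (Real.pi * |u|) = 2 * |u| := by
      field_simp
    rw [h6] at h5
    exact h5.trans (le_abs_self _)
  linarith

/-- geometric sums -/
lemma norm_geom (t : ℝ) (n : ℕ) : ‖∑ m ∈ range n, e (m * t)‖ * ‖1 - e t‖ ≤ 2 := by
  have h : (∑ m ∈ range n, e (m * t)) * (1 - e t) = 1 - e t ^ n := by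
    have := geom_sum_mul_neg (e t) n
    rw [← this]
    congr 1
    exact Finset.sum_congr rfl (fun m _ => e_nat_mul m t)
  rw [← norm_mul, h]
  calc ‖1 - e t ^ n‖ ≤ ‖(1:ℂ)‖ + ‖e t ^ n‖ := norm_sub_le _ _
    _ = 2 := by rw [norm_pow, norm_e]; norm_num

lemma norm_geom_le (t ε : ℝ) (hε : 0 < ε) (ht : ε ≤ |t - round t|) (n : ℕ) :
    ‖∑ m ∈ range n, e (m * t)‖ ≤ 1 / (2 * ε) := by
  have h1 := norm_geom t n
  have h2 := norm_one_sub_e t
  rw [le_div_iff₀ (by positivity)]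
  have h3 : ‖∑ m ∈ range n, e (m * t)‖ * (4 * ε) ≤ 2 := by
    calc _ ≤ ‖∑ m ∈ range n, e (m * t)‖ * ‖1 - e t‖ := by
          apply mul_le_mul_of_nonneg_left _ (norm_nonneg _)
          linarith
      _ ≤ 2 := h1
  linarith

lemma norm_geom_Ico (t ε : ℝ) (hε : 0 < ε) (ht : ε ≤ |t - round t|) (T n : ℕ) :
    ‖∑ l ∈ Ico T (T + n), e (l * t)‖ ≤ 1 / (2 * ε) := by
  rw [Finset.sum_Ico_eq_sum_range]
  have : ∑ k ∈ range (T + n - T), e (((T + k : ℕ) : ℝ) * t)
      = e (T * t) * ∑ k ∈ range n, e (k * t) := by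
    rw [Finset.mul_sum]
    rw [show T + n - T = n by omega]
    refine Finset.sum_congr rfl (fun k _ => ?_)
    rw [← e_add]; congr 1; push_cast; ring
  rw [this, norm_mul, norm_e, one_mul]
  exact norm_geom_le t ε hε ht n

/-- expansion of a squared modulus -/
lemma normSq_sum {ι : Type*} (s : Finset ι) (f : ι → ℝ) :
    ((‖∑ i ∈ s, e (f i)‖ ^ 2 : ℝ) : ℂ) = ∑ i ∈ s, ∑ j ∈ s, e (f i - f j) := by
  have h : ((‖∑ i ∈ s, e (f i)‖ ^ 2 : ℝ) : ℂ)
      = (∑ i ∈ s, e (f i)) * (starRingEnd ℂ) (∑ i ∈ s, e (f i)) := by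
    rw [Complex.mul_conj, Complex.normSq_eq_norm_sq]
  rw [h, map_sum, Finset.sum_mul_sum]
  refine Finset.sum_congr rfl (fun i _ => Finset.sum_congr rfl (fun j _ => ?_))
  rw [conj_e, ← e_add]; rfl

/-- second moment over `l` -/
lemma second_moment {n : ℕ} (x : Fin n → ℝ) (h : ℝ)
    (hx : ∀ i j, i ≠ j → ∀ z : ℤ, h * (x i - x j) ≠ z) :
    ∃ C : ℝ, 0 ≤ C ∧ ∀ N T : ℕ,
      ∑ l ∈ Ico T (T + N), ‖∑ i, e (h * (l * x i))‖ ^ 2 ≤ n * N + C := by
  classical
  -- minimal distance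
  obtain ⟨ε, hε, hd⟩ : ∃ ε : ℝ, 0 < ε ∧ ∀ i j, i ≠ j →
      ε ≤ |h * (x i - x j) - round (h * (x i - x j))| := by
    have hpos : ∀ i j, i ≠ j → 0 < |h * (x i - x j) - round (h * (x i - x j))| := by
      intro i j hij
      rw [abs_pos, sub_ne_zero]
      exact hx i j hij _
    let S : Finset (Fin n × Fin n) := univ.filter (fun p => p.1 ≠ p.2)
    by_cases hS : S.Nonempty
    · obtain ⟨p, hp, hmin⟩ := S.exists_min_image
        (fun p => |h * (x p.1 - x p.2) - round (h * (x p.1 - x p.2))|) hS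
      refine ⟨_, hpos p.1 p.2 ((Finset.mem_filter.1 hp).2), fun i j hij => ?_⟩
      exact hmin (i, j) (by simp [S, hij])
    · refine ⟨1, one_pos, fun i j hij => ?_⟩
      exfalso
      exact hS ⟨(i, j), by simp [S, hij]⟩
  refine ⟨n * n * (1 / (2 * ε)), by positivity, fun N T => ?_⟩
  have h1 : ((∑ l ∈ Ico T (T + N), ‖∑ i, e (h * (l * x i))‖ ^ 2 : ℝ) : ℂ)
      = ∑ i : Fin n, ∑ j : Fin n, ∑ l ∈ Ico T (T + N), e (l * (h * (x i - x j))) := by
    rw [Complex.ofReal_sum]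
    have : ∀ l ∈ Ico T (T + N), ((‖∑ i, e (h * (l * x i))‖ ^ 2 : ℝ) : ℂ)
        = ∑ i : Fin n, ∑ j : Fin n, e (l * (h * (x i - x j))) := by
      intro l _
      rw [normSq_sum]
      refine Finset.sum_congr rfl (fun i _ => Finset.sum_congr rfl (fun j _ => ?_))
      congr 1; ring
    rw [Finset.sum_congr rfl this, Finset.sum_comm]
    refine Finset.sum_congr rfl (fun i _ => ?_)
    rw [Finset.sum_comm]
  have h2 : ‖((∑ l ∈ Ico T (T + N), ‖∑ i, e (h * (l * x i))‖ ^ 2 : ℝ) : ℂ)‖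
      ≤ ∑ i : Fin n, ∑ j : Fin n, ((if i = j then (N : ℝ) else 0) + 1 / (2 * ε)) := by
    rw [h1]
    refine (norm_sum_le _ _).trans (Finset.sum_le_sum fun i _ => ?_)
    refine (norm_sum_le _ _).trans (Finset.sum_le_sum fun j _ => ?_)
    by_cases hij : i = j
    · subst hij
      simp only [sub_self, mul_zero, e_zero, if_true]
      rw [Finset.sum_const, Nat.card_Ico]
      have : (T + N - T) = N := by omega
      rw [this]
      simp only [nsmul_eq_mul, mul_one, Complex.norm_natCast]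
      have : 0 < 1 / (2 * ε) := by positivity
      linarith
    · rw [if_neg hij, zero_add]
      exact norm_geom_Ico _ ε hε (hd i j hij) T N
  have h3 : ∑ i : Fin n, ∑ j : Fin n, ((if i = j then (N : ℝ) else 0) + 1 / (2 * ε))
      = n * N + n * n * (1 / (2 * ε)) := by
    simp [Finset.sum_add_distrib, Finset.sum_ite_eq]
    ring
  rw [h3] at h2
  rw [Complex.norm_real] at h2
  exact (le_abs_self _).trans h2

/-- a gap forces a large exponential sum -/
lemma gap_large {n : ℕ} (hn : 0 < n) (y : Fin n → ℝ) (γ ε : ℝ) (hε : 0 < ε)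
    (hy : ∀ i, ε ≤ |(y i - γ) - round (y i - γ)|) (R : ℕ) (hR : 1 / (4 * ε ^ 2) ≤ R) :
    ∃ h ∈ Finset.Icc 1 R, (n : ℝ) / (R + 1) ^ 2 ≤ ‖∑ i, e (h * y i)‖ := by
  classical
  by_contra hcon
  push Not at hcon
  -- upper bound
  have hup : ∑ i, ‖∑ m ∈ range (R + 1), e (m * (y i - γ))‖ ^ 2 ≤ n * (1 / (4 * ε ^ 2)) := by
    calc _ ≤ ∑ i : Fin n, (1 / (2 * ε)) ^ 2 := by
          refine Finset.sum_le_sum fun i _ => ?_
          exact pow_le_pow_left₀ (norm_nonneg _) (norm_geom_le _ ε hε (hy i) _) 2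
      _ = n * (1 / (4 * ε ^ 2)) := by
          simp
          left
          ring
  -- expansion
  have hex : ((∑ i, ‖∑ m ∈ range (R + 1), e (m * (y i - γ))‖ ^ 2 : ℝ) : ℂ)
      = ∑ m ∈ range (R + 1), ∑ m' ∈ range (R + 1),
          e (-((m : ℝ) - m') * γ) * ∑ i, e (((m : ℝ) - m') * y i) := by
    rw [Complex.ofReal_sum]
    simp_rw [normSq_sum]
    rw [Finset.sum_comm]
    refine Finset.sum_congr rfl (fun m _ => ?_)
    rw [Finset.sum_comm]
    refine Finset.sum_congr rfl (fun m' _ => ?_)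
    rw [Finset.mul_sum]
    refine Finset.sum_congr rfl (fun i _ => ?_)
    rw [← e_add]; congr 1; ring
  have hterm : ∀ m ∈ range (R + 1), ∀ m' ∈ range (R + 1),
      ‖e (-((m : ℝ) - m') * γ) * ∑ i, e (((m : ℝ) - m') * y i) - (if m = m' then (n : ℂ) else 0)‖
        ≤ (if m = m' then 0 else (n : ℝ) / (R + 1) ^ 2) := by
    intro m hm m' hm'
    rw [Finset.mem_range] at hm hm'
    by_cases hmm : m = m'
    · subst hmm
      simp [e_zero]
    · rw [if_neg hmm, if_neg hmm, sub_zero, norm_mul, norm_e, one_mul]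
      rcases lt_or_gt_of_ne hmm with hlt | hlt
      · have h1 := (hcon (m' - m) (by simp; omega)).le
        have h2 : ‖∑ i, e (((m : ℝ) - m') * y i)‖ = ‖∑ i, e (((m' - m : ℕ) : ℝ) * y i)‖ := by
          have : ∑ i, e (((m : ℝ) - m') * y i)
              = (starRingEnd ℂ) (∑ i, e (((m' - m : ℕ) : ℝ) * y i)) := by
            rw [map_sum]
            refine Finset.sum_congr rfl (fun i _ => ?_)
            rw [conj_e, Nat.cast_sub hlt.le]; congr 1; ring
          rw [this, Complex.norm_conj]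
        rw [h2]; exact h1
      · have h1 := (hcon (m - m') (by simp; omega)).le
        rw [Nat.cast_sub hlt.le] at h1
        exact h1
  have hlow : (n : ℝ) * (R + 1) - (R + 1) * R * (n / (R + 1) ^ 2) ≤
      ∑ i, ‖∑ m ∈ range (R + 1), e (m * (y i - γ))‖ ^ 2 := by
    have h1 : ‖((∑ i, ‖∑ m ∈ range (R + 1), e (m * (y i - γ))‖ ^ 2 : ℝ) : ℂ) - (n : ℂ) * (R + 1)‖
        ≤ (R + 1) * R * (n / (R + 1) ^ 2) := by
      have h2 : (n : ℂ) * (R + 1) = ∑ m ∈ range (R + 1), ∑ m' ∈ range (R + 1),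
          (if m = m' then (n : ℂ) else 0) := by
        simp only [Finset.sum_ite_eq, Finset.mem_range]
        rw [Finset.sum_congr rfl (g := fun _ => (n : ℂ))
          (fun m hm => by rw [if_pos (Finset.mem_range.1 hm)])]
        simp; ring
      rw [hex, h2, ← Finset.sum_sub_distrib]
      simp_rw [← Finset.sum_sub_distrib]
      calc _ ≤ ∑ m ∈ range (R + 1), ∑ m' ∈ range (R + 1),
            (if m = m' then 0 else (n : ℝ) / (R + 1) ^ 2) := by
            refine (norm_sum_le _ _).trans (Finset.sum_le_sum fun m hm => ?_)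
            exact (norm_sum_le _ _).trans (Finset.sum_le_sum fun m' hm' => hterm m hm m' hm')
        _ = ∑ m ∈ range (R + 1), (R : ℝ) * (n / (R + 1) ^ 2) := by
            refine Finset.sum_congr rfl (fun m hm => ?_)
            have : ∀ m' ∈ range (R + 1), (if m = m' then 0 else (n : ℝ) / (R + 1) ^ 2)
                = (n : ℝ) / (R + 1) ^ 2 - (if m = m' then (n : ℝ) / (R + 1) ^ 2 else 0) := by
              intro m' _; split_ifs <;> ring
            rw [Finset.sum_congr rfl this, Finset.sum_sub_distrib, Finset.sum_ite_eq, if_pos hm]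
            simp; ring
        _ = _ := by simp; ring
    set A : ℝ := ∑ i, ‖∑ m ∈ range (R + 1), e (m * (y i - γ))‖ ^ 2 with hA
    have h3 : ‖(A : ℂ) - (n : ℂ) * (R + 1)‖ = |A - n * (R + 1)| := by
      rw [show (A : ℂ) - (n : ℂ) * (R + 1) = ((A - n * (R + 1) : ℝ) : ℂ) by push_cast; ring]
      rw [Complex.norm_real]; rfl
    rw [h3] at h1
    have h4 := (abs_le.1 h1).1
    linarith
  have hn' : (0 : ℝ) < n := by exact_mod_cast hn
  have h5 : (R + 1 : ℝ) * R * (n / (R + 1) ^ 2) < n := by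
    rw [mul_div_assoc', div_lt_iff₀ (by positivity)]
    have : (0 : ℝ) ≤ R := Nat.cast_nonneg R
    nlinarith
  have h6 : (n : ℝ) * (1 / (4 * ε ^ 2)) ≤ n * R := mul_le_mul_of_nonneg_left hR hn'.le
  linarith

end Pool.Agent.H332R2.Lit
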