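import Pool.Agent.H332R2.Lit.Glas

set_option autoImplicit false

namespace Pool.Agent.H332R2.Lit

open Finset Complex

/-- From an infinite subset of the circle one can pick a sequence with pairwise differences of
order larger than `R`. -/
lemma pick (X : Set UnitAddCircle) (hX : X.Infinite) (R : ℕ) :
    ∃ f : ℕ → UnitAddCircle, (∀ n, f n ∈ X) ∧
      ∀ i j, i ≠ j → ∀ h ∈ Finset.Icc 1 R, h • (f i - f j) ≠ 0 := by
  classical
  let r : UnitAddCircle → UnitAddCircle → Prop :=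
    fun x y => ∀ h ∈ Finset.Icc 1 R, h • (x - y) ≠ 0
  haveI : Std.Symm r := ⟨by
    intro x y hxy h hh hc
    apply hxy h hh
    rw [← neg_sub, smul_neg, hc, neg_zero]⟩
  have key : ∀ s : Finset UnitAddCircle, (∀ x ∈ s, x ∈ X) → ∃ y, y ∈ X ∧ ∀ x ∈ s, r x y := by
    intro s _
    have hfin : (⋃ x ∈ s, ⋃ h ∈ Finset.Icc 1 R, {y : UnitAddCircle | h • (x - y) = 0}).Finite := by
      refine s.finite_toSet.biUnion fun x _ => ?_
      refine (Finset.Icc 1 R).finite_toSet.biUnion fun h hh => ?_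
      have hh' : 0 < h := (Finset.mem_Icc.1 hh).1
      have hf := AddCircle.finite_torsion (p := (1:ℝ)) hh'
      have : {y : UnitAddCircle | h • (x - y) = 0}
          = (fun u => x - u) '' {u : UnitAddCircle | h • u = 0} := by
        ext y
        simp only [Set.mem_setOf_eq, Set.mem_image]
        constructor
        · intro hy
          exact ⟨x - y, hy, by abel⟩
        · rintro ⟨u, hu, rfl⟩
          simpa using hu
      rw [this]
      exact hf.image _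
    obtain ⟨y, hy, hy2⟩ := (hX.diff hfin).nonempty
    refine ⟨y, hy, fun x hx h hh hc => hy2 ?_⟩
    simp only [Set.mem_iUnion]
    exact ⟨x, hx, h, hh, hc⟩
  obtain ⟨f, hf, hr⟩ := exists_seq_of_forall_finset_exists' (fun x => x ∈ X) r key
  exact ⟨f, hf, fun i j hij => hr hij⟩

theorem glasner (X : Set UnitAddCircle) (hX : X.Infinite) (ε δ : ℝ) (hε : 0 < ε) (hδ : 0 < δ) :
    ∃ N₀ : ℕ, ∀ N ≥ N₀, ∀ T : ℕ, ∀ S : Finset ℕ, S ⊆ Ico T (T + N) →
      (∀ l ∈ S, ∃ γ : ℝ, ∀ x : ℝ, (x : UnitAddCircle) ∈ X →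
        ε ≤ |(l * x - γ) - round (l * x - γ)|) → (S.card : ℝ) ≤ δ * N := by
  classical
  obtain ⟨R, hR⟩ := exists_nat_ge (1 / (4 * ε ^ 2))
  obtain ⟨f, hf, hfr⟩ := pick X hX R
  obtain ⟨n, hn⟩ := exists_nat_ge (2 * R * (R + 1) ^ 4 / δ + 1)
  have hn0 : 0 < n := by
    have : (0 : ℝ) < n := lt_of_lt_of_le (by positivity) hn
    exact_mod_cast this
  have hn' : (0 : ℝ) < n := by exact_mod_cast hn0
  -- lifts
  have hlift : ∀ i : ℕ, ∃ x : ℝ, (x : UnitAddCircle) = f i := fun i =>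
    QuotientAddGroup.mk_surjective (f i)
  choose x hx using hlift
  have hC : ∀ h : ℕ, ∃ C : ℝ, 0 ≤ C ∧ (h ∈ Finset.Icc 1 R → ∀ N T : ℕ,
      ∑ l ∈ Ico T (T + N), ‖∑ i : Fin n, e (h * (l * x i))‖ ^ 2 ≤ n * N + C) := by
    intro h
    by_cases hh : h ∈ Finset.Icc 1 R
    · obtain ⟨C, hC0, hC⟩ := second_moment (fun i : Fin n => x i) (h : ℝ) (by
        intro i j hij z hz
        have hij' : (i : ℕ) ≠ j := fun hc => hij (Fin.ext hc)
        apply hfr i j hij' h hh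
        rw [← hx i, ← hx j, ← AddCircle.coe_sub, ← AddCircle.coe_nsmul, AddCircle.coe_eq_zero_iff]
        refine ⟨z, ?_⟩
        rw [nsmul_eq_mul, hz]; simp)
      exact ⟨C, hC0, fun _ => hC⟩
    · exact ⟨0, le_rfl, fun hc => absurd hc hh⟩
  choose C hC0 hC using hC
  obtain ⟨N₀, hN₀⟩ := exists_nat_ge (2 * (R + 1) ^ 4 * (∑ h ∈ Finset.Icc 1 R, C h) / δ)
  refine ⟨N₀, fun N hN T S hS hbad => ?_⟩
  have hN' : 2 * (R + 1) ^ 4 * (∑ h ∈ Finset.Icc 1 R, C h) / δ ≤ N :=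
    hN₀.trans (by exact_mod_cast hN)
  have hN2 : 2 * (R + 1) ^ 4 * (∑ h ∈ Finset.Icc 1 R, C h) ≤ δ * N := by
    rw [div_le_iff₀ hδ] at hN'; linarith
  have hn2 : 2 * R * (R + 1 : ℝ) ^ 4 ≤ δ * n := by
    have : 2 * R * (R + 1 : ℝ) ^ 4 / δ ≤ n := by linarith
    rw [div_le_iff₀ hδ] at this; linarith
  -- lower bound for each bad l
  have hlow : ∀ l ∈ S, ((n : ℝ) / (R + 1) ^ 2) ^ 2 ≤
      ∑ h ∈ Finset.Icc 1 R, ‖∑ i : Fin n, e (h * (l * x i))‖ ^ 2 := by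
    intro l hl
    obtain ⟨γ, hγ⟩ := hbad l hl
    obtain ⟨h, hh, hle⟩ := gap_large hn0 (fun i : Fin n => l * x i) γ ε hε
      (fun i => hγ (x i) (by rw [hx]; exact hf i)) R hR
    calc ((n : ℝ) / (R + 1) ^ 2) ^ 2 ≤ ‖∑ i : Fin n, e (h * (l * x i))‖ ^ 2 :=
          pow_le_pow_left₀ (by positivity) hle 2
      _ ≤ _ := Finset.single_le_sum
          (f := fun h : ℕ => ‖∑ i : Fin n, e (h * (l * x i))‖ ^ 2)
          (fun _ _ => by positivity) hh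
  have hsum : (S.card : ℝ) * ((n : ℝ) / (R + 1) ^ 2) ^ 2 ≤
      R * (n * N) + ∑ h ∈ Finset.Icc 1 R, C h := by
    calc (S.card : ℝ) * ((n : ℝ) / (R + 1) ^ 2) ^ 2
        = ∑ _l ∈ S, ((n : ℝ) / (R + 1) ^ 2) ^ 2 := by simp
      _ ≤ ∑ l ∈ S, ∑ h ∈ Finset.Icc 1 R, ‖∑ i : Fin n, e (h * (l * x i))‖ ^ 2 :=
          Finset.sum_le_sum hlow
      _ ≤ ∑ l ∈ Ico T (T + N), ∑ h ∈ Finset.Icc 1 R, ‖∑ i : Fin n, e (h * (l * x i))‖ ^ 2 :=
          Finset.sum_le_sum_of_subset_of_nonneg hS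
            (fun _ _ _ => Finset.sum_nonneg fun _ _ => by positivity)
      _ = ∑ h ∈ Finset.Icc 1 R, ∑ l ∈ Ico T (T + N), ‖∑ i : Fin n, e (h * (l * x i))‖ ^ 2 :=
          Finset.sum_comm
      _ ≤ ∑ h ∈ Finset.Icc 1 R, ((n : ℝ) * N + C h) :=
          Finset.sum_le_sum fun h hh => hC h hh N T
      _ = R * (n * N) + ∑ h ∈ Finset.Icc 1 R, C h := by
          rw [Finset.sum_add_distrib]; simp
  have hR1 : (0 : ℝ) < (R + 1) ^ 4 := by positivity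
  have h7 : (S.card : ℝ) * n ^ 2 ≤ (R + 1) ^ 4 * (R * (n * N) + ∑ h ∈ Finset.Icc 1 R, C h) := by
    have : (S.card : ℝ) * ((n : ℝ) / (R + 1) ^ 2) ^ 2 = (S.card : ℝ) * n ^ 2 / (R + 1) ^ 4 := by
      field_simp
    rw [this, div_le_iff₀ hR1] at hsum
    linarith
  have h8 : (R + 1 : ℝ) ^ 4 * (R * (n * N)) ≤ δ * N * n ^ 2 / 2 := by
    have : (R + 1 : ℝ) ^ 4 * (R * (n * N)) = (2 * R * (R + 1) ^ 4) * (n * N) / 2 := by ring
    rw [this]
    have h9 := mul_le_mul_of_nonneg_right hn2 (show (0:ℝ) ≤ n * N by positivity)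
    nlinarith
  have h10 : (R + 1 : ℝ) ^ 4 * (∑ h ∈ Finset.Icc 1 R, C h) ≤ δ * N * n ^ 2 / 2 := by
    have hn1 : (1 : ℝ) ≤ n ^ 2 := by
      have : (1 : ℝ) ≤ n := by exact_mod_cast hn0
      nlinarith
    have : 0 ≤ δ * N := by positivity
    nlinarith
  have h11 : (S.card : ℝ) * n ^ 2 ≤ δ * N * n ^ 2 := by nlinarith
  exact le_of_mul_le_mul_right h11 (by positivity)

end Pool.Agent.H332R2.Lit
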