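import Pool.Agent.H332R2.Lit.CF

set_option autoImplicit false

namespace Pool.Agent.H332R2.Lit

open Filter Topology

/-- every circle element has a real lift of the same absolute value -/
lemma lift_small (x : UnitAddCircle) : ∃ r : ℝ, (r : UnitAddCircle) = x ∧ |r| = ‖x‖ := by
  obtain ⟨y, hy⟩ := QuotientAddGroup.mk_surjective x
  have hy' : (y : UnitAddCircle) = x := hy
  refine ⟨y - round y, ?_, ?_⟩
  · rw [AddCircle.coe_sub, hy']
    have : ((round y : ℝ) : UnitAddCircle) = 0 := by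
      rw [AddCircle.coe_eq_zero_iff]; exact ⟨round y, by simp⟩
    rw [this, sub_zero]
  · rw [← hy', UnitAddCircle.norm_eq]

lemma int_of_coe_zero {r : ℝ} (h : (r : UnitAddCircle) = 0) : ∃ n : ℤ, r = n := by
  rw [AddCircle.coe_eq_zero_iff] at h
  obtain ⟨n, hn⟩ := h
  exact ⟨n, by rw [← hn]; simp⟩

lemma zero_of_coe_zero {r : ℝ} (h : (r : UnitAddCircle) = 0) (hr : |r| < 1) : r = 0 := by
  obtain ⟨n, hn⟩ := int_of_coe_zero h
  rw [hn] at hr ⊢
  have : |n| < 1 := by exact_mod_cast hr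
  rw [Int.abs_lt_one_iff.1 this]; simp

theorem relation_of_finite {α β : ℝ} (q p a : ℕ → ℤ)
    (hq0 : ∀ k, 0 ≤ q k) (hq1 : ∀ k, 1 ≤ q (k + 1)) (hqk : ∀ k : ℕ, (k : ℤ) ≤ q k + 1) (ha1 : ∀ k, 1 ≤ a k)
    (hqr : ∀ k, q (k + 2) = a k * q (k + 1) + q k)
    (hpr : ∀ k, p (k + 2) = a k * p (k + 1) + p k)
    (hsgn : ∀ k, (q k * α - p k) * (q (k + 1) * α - p (k + 1)) < 0)
    (hdet : ∀ k, (q (k + 1) : ℝ) * |q k * α - p k| + q k * |q (k + 1) * α - p (k + 1)| = 1)
    (A : ℕ) (haA : ∀ᶠ k in atTop, a k ≤ A)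
    (hfin : {x : UnitAddCircle | MapClusterPt x atTop
      (fun k => ((q k * β : ℝ) : UnitAddCircle))}.Finite) :
    ∃ U V W : ℤ, U ≠ 0 ∧ (U : ℝ) * β = V * α + W := by
  classical
  set D : ℕ → ℝ := fun k => q k * α - p k with hD
  set θ : ℕ → UnitAddCircle := fun k => ((q k * β : ℝ) : UnitAddCircle) with hθ
  set X := hfin.toFinset with hX
  have hXmem : ∀ x, x ∈ X ↔ MapClusterPt x atTop θ := by
    intro x; rw [hX, Set.Finite.mem_toFinset]; rfl
  -- (i) θ is eventually near X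
  have hnear : ∀ η : ℝ, 0 < η → ∀ᶠ k in atTop, ∃ x ∈ X, ‖θ k - x‖ < η := by
    intro η hη
    by_contra hcon
    rw [not_eventually] at hcon
    have hK : IsCompact {y : UnitAddCircle | ¬ ∃ x ∈ X, ‖y - x‖ < η} := by
      apply IsClosed.isCompact
      rw [← isOpen_compl_iff]
      have : {y : UnitAddCircle | ¬ ∃ x ∈ X, ‖y - x‖ < η}ᶜ = ⋃ x ∈ X, Metric.ball x η := by
        ext y
        simp [Metric.mem_ball, dist_eq_norm]
      rw [this]
      exact isOpen_biUnion fun x _ => Metric.isOpen_ball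
    obtain ⟨y, hy, hyc⟩ := hK.exists_mapClusterPt_of_frequently (f := θ) (l := atTop) hcon
    apply hy
    exact ⟨y, (hXmem y).2 hyc, by simpa using hη⟩
  have hXne : X.Nonempty := by
    obtain ⟨k, x, hx, _⟩ := (hnear 1 one_pos).exists
    exact ⟨x, hx⟩
  -- nearest points
  have hnp : ∀ k, ∃ x ∈ X, ∀ x' ∈ X, ‖θ k - x‖ ≤ ‖θ k - x'‖ := fun k =>
    X.exists_min_image (fun x => ‖θ k - x‖) hXne
  choose x hxX hxmin using hnp
  have hlift : ∀ k, ∃ r : ℝ, (r : UnitAddCircle) = θ k - x k ∧ |r| = ‖θ k - x k‖ :=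
    fun k => lift_small _
  choose r hr1 hr2 using hlift
  have hrsmall : ∀ η : ℝ, 0 < η → ∀ᶠ k in atTop, |r k| < η := by
    intro η hη
    filter_upwards [hnear η hη] with k hk
    obtain ⟨x', hx', hlt⟩ := hk
    rw [hr2]
    exact (hxmin k x' hx').trans_lt hlt
  -- (ii) gap in the finite set of differences
  obtain ⟨μ, hμ, hgap⟩ : ∃ μ : ℝ, 0 < μ ∧ ∀ u ∈ X, ∀ v ∈ X, ∀ w ∈ X, ∀ b : ℤ, 0 ≤ b → b ≤ A →
      u - b • v - w ≠ 0 → μ ≤ ‖u - b • v - w‖ := by
    let S : Finset UnitAddCircle := ((X ×ˢ X ×ˢ X ×ˢ Finset.Icc (0 : ℤ) A).image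
      (fun t => t.1 - t.2.2.2 • t.2.1 - t.2.2.1)).filter (fun s => s ≠ 0)
    by_cases hS : S.Nonempty
    · obtain ⟨s, hs, hmin⟩ := S.exists_min_image (fun s => ‖s‖) hS
      refine ⟨‖s‖, norm_pos_iff.2 (Finset.mem_filter.1 hs).2, ?_⟩
      intro u hu v hv w hw b hb0 hb hne
      apply hmin
      rw [Finset.mem_filter]
      refine ⟨Finset.mem_image.2 ⟨(u, v, w, b), ?_, rfl⟩, hne⟩
      simp [hu, hv, hw, hb0, hb]
    · refine ⟨1, one_pos, ?_⟩
      intro u hu v hv w hw b hb0 hb hne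
      exfalso
      apply hS
      refine ⟨u - b • v - w, ?_⟩
      rw [Finset.mem_filter]
      refine ⟨Finset.mem_image.2 ⟨(u, v, w, b), ?_, rfl⟩, hne⟩
      simp [hu, hv, hw, hb0, hb]
  -- (iii),(iv),(v) exact recurrences
  have hθr : ∀ k, θ (k + 2) - a k • θ (k + 1) - θ k = 0 := by
    intro k
    simp only [hθ]
    rw [← AddCircle.coe_zsmul, ← AddCircle.coe_sub, ← AddCircle.coe_sub]
    rw [hqr]
    have : (((a k * q (k + 1) + q k : ℤ) : ℝ) * β - a k • ((q (k + 1) : ℝ) * β) - q k * β) = 0 := by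
      rw [zsmul_eq_mul]; push_cast; ring
    rw [this]; rfl
  have hrec : ∀ᶠ k in atTop, r (k + 2) = a k * r (k + 1) + r k := by
    have hη0 : 0 < min μ 1 / (A + 3) := by positivity
    have h1 := hrsmall (min μ 1 / (A + 3)) hη0
    have h2 := (tendsto_add_atTop_nat 1).eventually h1
    have h3 := (tendsto_add_atTop_nat 2).eventually h1
    filter_upwards [h1, h2, h3, haA] with k e0 e1 e2 hak
    have hak0 : (0 : ℤ) ≤ a k := by have := ha1 k; omega
    have hakr : (a k : ℝ) ≤ A := by exact_mod_cast hak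
    have hakr0 : (0 : ℝ) ≤ a k := by exact_mod_cast hak0
    have hsum : |r (k + 2) - a k * r (k + 1) - r k| < min μ 1 := by
      have t1 : |r (k + 2) - a k * r (k + 1) - r k| ≤ |r (k + 2)| + a k * |r (k + 1)| + |r k| := by
        calc _ ≤ |r (k + 2) - a k * r (k + 1)| + |r k| := abs_sub _ _
          _ ≤ |r (k + 2)| + |a k * r (k + 1)| + |r k| := by gcongr; exact abs_sub _ _
          _ = _ := by rw [abs_mul, abs_of_nonneg hakr0]
      have t2 : (a k : ℝ) * |r (k + 1)| ≤ A * (min μ 1 / (A + 3)) :=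
        mul_le_mul hakr e1.le (abs_nonneg _) (by positivity)
      have t3 : min μ 1 = (A + 3) * (min μ 1 / (A + 3)) := by field_simp
      rw [t3]
      nlinarith
    have hcoe : ((r (k + 2) - a k * r (k + 1) - r k : ℝ) : UnitAddCircle)
        = -(x (k + 2) - a k • x (k + 1) - x k) := by
      rw [AddCircle.coe_sub, AddCircle.coe_sub]
      have : (((a k : ℝ) * r (k + 1) : ℝ) : UnitAddCircle) = a k • ((r (k + 1) : ℝ) : UnitAddCircle) := by
        rw [← AddCircle.coe_zsmul, zsmul_eq_mul]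
      rw [this, hr1, hr1, hr1, smul_sub]
      have h0 := hθr k
      have : θ (k + 2) = a k • θ (k + 1) + θ k := by
        rw [sub_sub, sub_eq_zero] at h0; exact h0
      rw [this]; abel
    have hxz : x (k + 2) - a k • x (k + 1) - x k = 0 := by
      by_contra hne
      have h5 := hgap _ (hxX (k + 2)) _ (hxX (k + 1)) _ (hxX k) (a k) hak0 hak hne
      have h6 : ‖((r (k + 2) - a k * r (k + 1) - r k : ℝ) : UnitAddCircle)‖
          ≤ |r (k + 2) - a k * r (k + 1) - r k| := by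
        rw [UnitAddCircle.norm_eq]
        have := round_le (r (k + 2) - a k * r (k + 1) - r k) 0
        simpa using this
      rw [hcoe, norm_neg] at h6
      have : μ < μ := by
        calc μ ≤ _ := h5
          _ ≤ _ := h6
          _ < min μ 1 := hsum
          _ ≤ μ := min_le_left _ _
      exact lt_irrefl _ this
    rw [hxz, neg_zero] at hcoe
    have h7 := zero_of_coe_zero hcoe (hsum.trans_le (min_le_right _ _))
    linarith
  obtain ⟨K, hK⟩ := eventually_atTop.1 hrec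
  -- (vi) Casoratian
  have hDr : ∀ k, D (k + 2) = a k * D (k + 1) + D k := by
    intro k
    simp only [hD]
    rw [hqr, hpr]; push_cast; ring
  have hD1 : ∀ k, (q (k + 1) : ℝ) * |D k| ≤ 1 := by
    intro k
    have h1 := hdet k
    have h3 : 0 ≤ (q k : ℝ) * |q (k + 1) * α - p (k + 1)| :=
      mul_nonneg (by exact_mod_cast hq0 k) (abs_nonneg _)
    simp only [hD]; linarith
  have hDle : ∀ k, |D k| ≤ 1 := by
    intro k
    have h2 : (1 : ℝ) ≤ q (k + 1) := by exact_mod_cast hq1 k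
    have h5 := hD1 k
    nlinarith [abs_nonneg (D k)]
  have hDne : ∀ k, D k ≠ 0 := by
    intro k hk
    have := hsgn k
    simp only [hD] at hk
    rw [hk, zero_mul] at this
    exact lt_irrefl _ this
  have hW : ∀ m, |r (K + m + 1) * D (K + m) - r (K + m) * D (K + m + 1)|
      = |r (K + 1) * D K - r K * D (K + 1)| := by
    intro m
    induction m with
    | zero => rfl
    | succ m ih =>
      rw [← ih, ← abs_neg]
      congr 1
      have e1 : r (K + (m + 1) + 1) = a (K + m) * r (K + m + 1) + r (K + m) :=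
        hK (K + m) (by omega)
      have e2 : D (K + (m + 1) + 1) = a (K + m) * D (K + m + 1) + D (K + m) := hDr (K + m)
      rw [e1, e2]
      have e3 : K + (m + 1) = K + m + 1 := by omega
      rw [e3]; ring
  have hW0 : |r (K + 1) * D K - r K * D (K + 1)| = 0 := by
    apply le_antisymm _ (abs_nonneg _)
    apply le_of_forall_pos_lt_add
    intro η hη
    rw [zero_add]
    have h1 := hrsmall (η / 2) (by linarith)
    have h2 := (tendsto_add_atTop_nat 1).eventually h1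
    obtain ⟨k, hk, hk1, hk2⟩ := (h1.and (h2.and (eventually_ge_atTop K))).exists
    obtain ⟨m, rfl⟩ := Nat.exists_eq_add_of_le hk2
    rw [← hW m]
    calc |r (K + m + 1) * D (K + m) - r (K + m) * D (K + m + 1)|
        ≤ |r (K + m + 1) * D (K + m)| + |r (K + m) * D (K + m + 1)| := abs_sub _ _
      _ ≤ |r (K + m + 1)| + |r (K + m)| := by
          rw [abs_mul, abs_mul]
          have := mul_le_mul_of_nonneg_left (hDle (K + m)) (abs_nonneg (r (K + m + 1)))
          have := mul_le_mul_of_nonneg_left (hDle (K + m + 1)) (abs_nonneg (r (K + m)))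
          linarith
      _ < η := by linarith
  set B : ℝ := r K / D K with hB
  have hrB : ∀ m, r (K + m) = B * D (K + m) := by
    intro m
    induction m with
    | zero => rw [hB]; field_simp [hDne K]; rfl
    | succ m ih =>
      have h1 : |r (K + m + 1) * D (K + m) - r (K + m) * D (K + m + 1)| = 0 := by
        rw [hW m, hW0]
      have h2 := abs_eq_zero.1 h1
      rw [ih] at h2
      have h3 : (r (K + m + 1) - B * D (K + m + 1)) * D (K + m) = 0 := by linarith
      rcases mul_eq_zero.1 h3 with h | h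
      · have e3 : K + (m + 1) = K + m + 1 := by omega
        rw [e3]; linarith
      · exact absurd h (hDne _)
  -- (vii) pigeonhole
  obtain ⟨v, hv⟩ : ∃ v ∈ X ×ˢ X, ∃ᶠ k in atTop, (x k, x (k + 1)) = v := by
    by_contra hcon
    push Not at hcon
    have h1 : ∀ᶠ k in atTop, ∀ v ∈ X ×ˢ X, (x k, x (k + 1)) ≠ v :=
      (Filter.eventually_all_finset (X ×ˢ X)).2 (fun v hv => by
        have := hcon v hv
        simpa [not_frequently] using this)
    obtain ⟨k, hk⟩ := h1.exists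
    exact hk _ (Finset.mk_mem_product (hxX k) (hxX (k + 1))) rfl
  obtain ⟨k1, hk1, hk1K⟩ := (hv.2.and_eventually (eventually_ge_atTop K)).exists
  obtain ⟨M, hM⟩ := exists_nat_gt ((q (k1 + 1) : ℝ) + 1 / |D k1| + (q k1 + 1))
  obtain ⟨k2, hk2, hk2M⟩ := (hv.2.and_eventually (eventually_ge_atTop (max M K))).exists
  have hk2K : K ≤ k2 := (le_max_right _ _).trans hk2M
  have hk2M' : M ≤ k2 := (le_max_left _ _).trans hk2M
  have hx1 : x k1 = x k2 := by
    have := hk1.trans hk2.symm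
    exact (Prod.mk.inj this).1
  have hx2 : x (k1 + 1) = x (k2 + 1) := by
    have := hk1.trans hk2.symm
    exact (Prod.mk.inj this).2
  have hrB' : ∀ k, K ≤ k → r k = B * D k := by
    intro k hk
    obtain ⟨m, rfl⟩ := Nat.exists_eq_add_of_le hk
    exact hrB m
  have hint : ∀ i j, K ≤ i → K ≤ j → x i = x j → ∃ n : ℤ,
      ((q j : ℝ) - q i) * β - B * (D j - D i) = n := by
    intro i j hi hj hij
    apply int_of_coe_zero
    have h1 : θ j - ((r j : ℝ) : UnitAddCircle) = θ i - ((r i : ℝ) : UnitAddCircle) := by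
      rw [hr1, hr1, hij]; abel
    rw [hrB' i hi, hrB' j hj] at h1
    have h2 : ((((q j : ℝ) - q i) * β - B * (D j - D i) : ℝ) : UnitAddCircle)
        = (θ j - ((B * D j : ℝ) : UnitAddCircle)) - (θ i - ((B * D i : ℝ) : UnitAddCircle)) := by
      simp only [hθ]
      rw [← AddCircle.coe_sub, ← AddCircle.coe_sub, ← AddCircle.coe_sub]
      congr 1; ring
    rw [h2, h1, sub_self]
  obtain ⟨n1, hn1⟩ := hint k1 k2 hk1K hk2K hx1
  obtain ⟨n2, hn2⟩ := hint (k1 + 1) (k2 + 1) (by omega) (by omega) hx2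
  -- determinant
  set Q1 : ℤ := q k2 - q k1 with hQ1
  set Q2 : ℤ := q (k2 + 1) - q (k1 + 1) with hQ2
  set P1 : ℤ := p k2 - p k1 with hP1
  set P2 : ℤ := p (k2 + 1) - p (k1 + 1) with hP2
  have hM2 : (M : ℝ) ≤ q (k2 + 1) := by
    have h := hqk (k2 + 1)
    push_cast at h
    have h' : (M : ℤ) ≤ q (k2 + 1) := by
      have : (M : ℤ) ≤ k2 := by exact_mod_cast hk2M'
      linarith
    exact_mod_cast h'
  have hDk1 : 0 < |D k1| := abs_pos.2 (hDne k1)
  have hqk1 : (0 : ℝ) ≤ q k1 := by exact_mod_cast hq0 k1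
  have hqk11 : (0 : ℝ) ≤ q (k1 + 1) := by exact_mod_cast hq0 (k1 + 1)
  have h1D : 0 < 1 / |D k1| := by positivity
  have hQ2pos : 1 < (Q2 : ℝ) * |D k1| := by
    have : 1 / |D k1| < (Q2 : ℝ) := by rw [hQ2]; push_cast; linarith
    rw [div_lt_iff₀ hDk1] at this
    exact this
  have hQ2' : (0 : ℝ) < Q2 := by
    by_contra hc
    push Not at hc
    nlinarith
  have hQ1' : (0 : ℝ) ≤ Q1 := by
    have h := hqk k2
    have h' : (M : ℤ) ≤ q k2 + 1 := by
      have : (M : ℤ) ≤ k2 := by exact_mod_cast hk2M'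
      linarith
    have h'' : (M : ℝ) ≤ q k2 + 1 := by exact_mod_cast h'
    rw [hQ1]; push_cast; linarith
  have hΔ : ((Q1 * P2 - Q2 * P1 : ℤ) : ℝ)
      = (Q1 * D (k1 + 1) - Q2 * D k1) + (Q2 * D k2 - Q1 * D (k2 + 1)) := by
    rw [hQ1, hQ2, hP1, hP2]
    simp only [hD]
    push_cast; ring
  have hbig : 1 < |(Q1 : ℝ) * D (k1 + 1) - Q2 * D k1| := by
    have h1 : |(Q1 : ℝ) * D (k1 + 1) - Q2 * D k1| = Q1 * |D (k1 + 1)| + Q2 * |D k1| := by
      have hs : D k1 * D (k1 + 1) < 0 := hsgn k1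
      rcases mul_neg_iff.1 hs with ⟨hx, hy⟩ | ⟨hx, hy⟩
      · rw [abs_of_pos hx, abs_of_neg hy, abs_of_neg (by nlinarith)]; ring
      · rw [abs_of_neg hx, abs_of_pos hy, abs_of_pos (by nlinarith)]; ring
    rw [h1]
    have := mul_nonneg hQ1' (abs_nonneg (D (k1 + 1)))
    linarith
  have hsmall : |(Q2 : ℝ) * D k2 - Q1 * D (k2 + 1)| ≤ 1 := by
    have h0 := hdet k2
    calc |(Q2 : ℝ) * D k2 - Q1 * D (k2 + 1)| ≤ |(Q2 : ℝ) * D k2| + |Q1 * D (k2 + 1)| := abs_sub _ _
      _ = Q2 * |D k2| + Q1 * |D (k2 + 1)| := by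
          rw [abs_mul, abs_mul, abs_of_pos hQ2', abs_of_nonneg hQ1']
      _ ≤ q (k2 + 1) * |D k2| + q k2 * |D (k2 + 1)| := by
          have t1 : (Q2 : ℝ) ≤ q (k2 + 1) := by rw [hQ2]; push_cast; linarith
          have t2 : (Q1 : ℝ) ≤ q k2 := by rw [hQ1]; push_cast; linarith
          exact add_le_add (mul_le_mul_of_nonneg_right t1 (abs_nonneg _))
            (mul_le_mul_of_nonneg_right t2 (abs_nonneg _))
      _ = 1 := h0
  have hΔne : Q1 * P2 - Q2 * P1 ≠ 0 := by
    intro h0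
    rw [h0] at hΔ
    push_cast at hΔ
    have : (Q1 : ℝ) * D (k1 + 1) - Q2 * D k1 = -(Q2 * D k2 - Q1 * D (k2 + 1)) := by linarith
    rw [this, abs_neg] at hbig
    linarith
  refine ⟨Q1 * P2 - Q2 * P1, Q1 * n2 - Q2 * n1, n1 * P2 - n2 * P1, hΔne, ?_⟩
  have e1 : (Q1 : ℝ) * β - B * (Q1 * α - P1) = n1 := by
    rw [← hn1, hQ1, hP1]; simp only [hD]; push_cast; ring
  have e2 : (Q2 : ℝ) * β - B * (Q2 * α - P2) = n2 := by
    rw [← hn2, hQ2, hP2]; simp only [hD]; push_cast; ring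
  push_cast
  rw [← e1, ← e2]; ring

end Pool.Agent.H332R2.Lit
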