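import Pool.Agent.H332R2.Lit.Glas2
import Pool.Agent.H332R2.Lit.Lim

set_option autoImplicit false

namespace Pool.Agent.H332R2.Lit

open Filter Topology

/-- distance to an integer dominates the distance to the nearest integer -/
lemma round_le' (x : ℝ) (n : ℤ) : |x - round x| ≤ |x - n| := round_le x n

lemma irrational_of_bad {α c : ℝ} (hc : 0 < c)
    (h : ∀ᶠ q : ℕ in atTop, c ≤ (q : ℝ) * |q * α - round (q * α)|) : Irrational α := by
  rintro ⟨r, hr⟩
  obtain ⟨N, hN⟩ := eventually_atTop.1 h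
  have h1 := hN (r.den * (N + 1)) (by
    have := r.den_pos
    nlinarith)
  have h2 : (((r.den * (N + 1) : ℕ) : ℝ) * α) = ((r.num * (N + 1) : ℤ) : ℝ) := by
    have h3 : (r.den : ℝ) * α = r.num := by
      rw [← hr]
      exact_mod_cast Rat.den_mul_eq_num r
    push_cast
    rw [← h3]; ring
  rw [h2, round_intCast, sub_self, abs_zero, mul_zero] at h1
  linarith

/-- the trivial case -/
lemma freq_of_not_bad {α : ℝ}
    (h : ¬ ∃ c : ℝ, 0 < c ∧ ∀ᶠ q : ℕ in atTop, c ≤ (q : ℝ) * |q * α - round (q * α)|)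
    (f : ℕ → ℝ) {ε : ℝ} (hε : 0 < ε) :
    ∃ᶠ q : ℕ in atTop, (q : ℝ) * |q * α - round (q * α)| * |f q - round (f q)| < ε := by
  push Not at h
  have h1 := h ε hε
  refine h1.mono fun q hq => ?_
  have h2 : |f q - round (f q)| ≤ 1 := (abs_sub_round _).trans (by norm_num)
  have h3 : 0 ≤ (q : ℝ) * |q * α - round (q * α)| := by positivity
  calc _ ≤ (q : ℝ) * |q * α - round (q * α)| * 1 := mul_le_mul_of_nonneg_left h2 h3
    _ < ε := by simpa using hq

/-- the resonant case -/
lemma freq_of_relation {α β : ℝ} (hα : Irrational α) (U V W : ℤ) (hU : U ≠ 0)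
    (hrel : (U : ℝ) * β = V * α + W) (l : ℕ) {ε : ℝ} (hε : 0 < ε) :
    ∃ᶠ q : ℕ in atTop,
      (q : ℝ) * |q * α - round (q * α)| * |q * (l * β) - round (q * (l * β))| < ε := by
  obtain ⟨q, p, a, hq0, hq1, hqk, ha1, hqr, hpr, hsgn, hdet, ha⟩ := cf_data hα
  have hU1 : 1 ≤ U.natAbs := Int.natAbs_pos.2 hU
  have hUr : ((U.natAbs : ℕ) : ℝ) = |(U : ℝ)| := by
    rw [Nat.cast_natAbs]; push_cast; rfl
  -- frequently in k
  have hfreq : ∃ᶠ k : ℕ in atTop, (fun q : ℕ =>
      (q : ℝ) * |q * α - round (q * α)| * |q * (l * β) - round (q * (l * β))| < ε)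
        (U.natAbs * (q (k + 1)).toNat) := by
    apply Eventually.frequently
    obtain ⟨M, hM⟩ := exists_nat_gt ((U : ℝ) ^ 2 * (l * |(V : ℝ)|) / ε)
    filter_upwards [eventually_ge_atTop (M + 1)] with k hk
    have hqn : (((q (k + 1)).toNat : ℕ) : ℝ) = q (k + 1) := by
      have := Int.toNat_of_nonneg (hq0 (k + 1))
      exact_mod_cast this
    have hqpos : (0 : ℝ) ≤ q (k + 1) := by exact_mod_cast hq0 (k + 1)
    push_cast
    rw [hqn, hUr]
    set Q : ℝ := ((q (k + 1) : ℤ) : ℝ) with hQ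
    set D : ℝ := Q * α - p (k + 1) with hD
    have hDk : (q (k + 2) : ℝ) * |D| ≤ 1 := by
      have h1 := hdet (k + 1)
      have h3 : 0 ≤ (q (k + 1) : ℝ) * |q (k + 1 + 1) * α - p (k + 1 + 1)| :=
        mul_nonneg hqpos (abs_nonneg _)
      simp only [hD, hQ]; linarith
    have hq2 : (k : ℝ) ≤ q (k + 2) := by
      have := hqk (k + 2); push_cast at this
      have : (k : ℤ) ≤ q (k + 2) := by linarith
      exact_mod_cast this
    have hqq : Q ≤ q (k + 2) := by
      have h1 := hqr k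
      have h2 := ha1 k
      have h3 := hq0 (k + 1)
      have h4 := hq0 k
      have : q (k + 1) ≤ q (k + 2) := by nlinarith
      rw [hQ]; exact_mod_cast this
    -- first factor
    have f1 : |(|(U : ℝ)| * Q) * α - round ((|(U : ℝ)| * Q) * α)| ≤ |(U : ℝ)| * |D| := by
      rcases abs_cases (U : ℝ) with hs | hs
      · rw [hs.1]
        have := round_le' ((U : ℝ) * Q * α) (U * p (k + 1))
        refine this.trans ?_
        rw [show (U : ℝ) * Q * α - ((U * p (k + 1) : ℤ) : ℝ) = U * D by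
          rw [hD]; push_cast; ring, abs_mul, hs.1]
      · rw [hs.1]
        have := round_le' (-(U : ℝ) * Q * α) (-(U * p (k + 1)))
        refine this.trans ?_
        rw [show -(U : ℝ) * Q * α - ((-(U * p (k + 1)) : ℤ) : ℝ) = -(U * D) by
          rw [hD]; push_cast; ring, abs_neg, abs_mul, hs.1]
    have f2 : |(|(U : ℝ)| * Q) * (l * β) - round ((|(U : ℝ)| * Q) * (l * β))|
        ≤ l * |(V : ℝ)| * |D| := by
      have key : ∀ s : ℤ, (s = 1 ∨ s = -1) → |(s * (U : ℝ) * Q) * (l * β)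
          - round ((s * (U : ℝ) * Q) * (l * β))| ≤ l * |(V : ℝ)| * |D| := by
        intro s hs
        have e1 : (s * (U : ℝ) * Q) * (l * β)
            - ((s * l * (V * p (k + 1) + W * q (k + 1)) : ℤ) : ℝ) = s * (l * V * D) := by
          have : (s * (U : ℝ) * Q) * (l * β) = s * Q * l * (U * β) := by ring
          rw [this, hrel, hD, hQ]; push_cast; ring
        refine (round_le' _ (s * l * (V * p (k + 1) + W * q (k + 1)))).trans ?_
        rw [e1]
        rcases hs with rfl | rfl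
        · simp [abs_mul]
        · simp [abs_mul]
      rcases abs_cases (U : ℝ) with hs | hs
      · rw [hs.1]; have := key 1 (Or.inl rfl); simpa using this
      · rw [hs.1]; have := key (-1) (Or.inr rfl); simpa using this
    have hD0 : 0 ≤ |D| := abs_nonneg D
    have hQD : Q * |D| ≤ 1 := (mul_le_mul_of_nonneg_right hqq hD0).trans hDk
    have hkD : (k : ℝ) * |D| ≤ 1 := (mul_le_mul_of_nonneg_right hq2 hD0).trans hDk
    have hUU : |(U : ℝ)| * |(U : ℝ)| = (U : ℝ) ^ 2 := by rw [← sq, sq_abs]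
    calc |(U : ℝ)| * Q * |(|(U : ℝ)| * Q) * α - round ((|(U : ℝ)| * Q) * α)|
          * |(|(U : ℝ)| * Q) * (l * β) - round ((|(U : ℝ)| * Q) * (l * β))|
        ≤ |(U : ℝ)| * Q * (|(U : ℝ)| * |D|) * (l * |(V : ℝ)| * |D|) := by
          gcongr
      _ = ((U : ℝ) ^ 2 * (l * |(V : ℝ)|)) * (Q * |D|) * |D| := by rw [← hUU]; ring
      _ ≤ ((U : ℝ) ^ 2 * (l * |(V : ℝ)|)) * 1 * |D| := by gcongr
      _ < ε := by
          have hk' : ((M : ℝ)) < k := by exact_mod_cast hk
          have hkpos : (0 : ℝ) < k := lt_of_le_of_lt (Nat.cast_nonneg M) hk'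
          have h1 : (U : ℝ) ^ 2 * (l * |(V : ℝ)|) < ε * k := by
            have := hM.trans hk'
            rw [div_lt_iff₀ hε] at this; linarith
          by_cases hDz : |D| = 0
          · rw [hDz]; simpa using hε
          · have hDp : 0 < |D| := lt_of_le_of_ne hD0 (Ne.symm hDz)
            calc (U : ℝ) ^ 2 * (l * |(V : ℝ)|) * 1 * |D| < (ε * k) * |D| := by
                  rw [mul_one]; exact mul_lt_mul_of_pos_right h1 hDp
              _ = ε * (k * |D|) := by ring
              _ ≤ ε * 1 := mul_le_mul_of_nonneg_left hkD hε.le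
              _ = ε := mul_one ε
  have htend : Tendsto (fun k : ℕ => U.natAbs * (q (k + 1)).toNat) atTop atTop := by
    apply tendsto_atTop_mono (f := fun k : ℕ => k)
    · intro k
      have h1 := hqk (k + 1)
      push_cast at h1
      have h2 : k ≤ (q (k + 1)).toNat := by omega
      calc k ≤ 1 * (q (k + 1)).toNat := by omega
        _ ≤ _ := Nat.mul_le_mul_right _ hU1
    · exact tendsto_id
  exact htend.frequently hfreq

/-- the main case -/
lemma main_case {α β : ℝ} {c : ℝ} (hc : 0 < c)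
    (hbad : ∀ᶠ q : ℕ in atTop, c ≤ (q : ℝ) * |q * α - round (q * α)|)
    (hno : ¬ ∃ U V W : ℤ, U ≠ 0 ∧ (U : ℝ) * β = V * α + W) {ε δ : ℝ} (hε : 0 < ε) (hδ : 0 < δ) :
    ∃ N₀ : ℕ, ∀ N ≥ N₀, ∀ T : ℕ, ∀ S : Finset ℕ, S ⊆ Finset.Ico T (T + N) →
      (∀ l ∈ S, ¬ ∀ γ : ℝ, ∃ᶠ q : ℕ in atTop, (q : ℝ) * |q * α - round (q * α)|
        * |(q * (l * β) - γ) - round (q * (l * β) - γ)| < ε) → (S.card : ℝ) ≤ δ * N := by
  have hα := irrational_of_bad hc hbad
  obtain ⟨q, p, a, hq0, hq1, hqk, ha1, hqr, hpr, hsgn, hdet, ha⟩ := cf_data hα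
  have hqtend : Tendsto (fun k : ℕ => (q k).toNat) atTop atTop := by
    apply tendsto_atTop_mono (f := fun k : ℕ => k - 1)
    · intro k
      have h1 := hqk k
      omega
    · exact tendsto_sub_atTop_nat 1
  have hqn : ∀ k, (((q k).toNat : ℕ) : ℝ) = q k := by
    intro k
    have := Int.toNat_of_nonneg (hq0 k)
    exact_mod_cast this
  have hD1 : ∀ k, (q (k + 1) : ℝ) * |q k * α - p k| ≤ 1 := by
    intro k
    have h1 := hdet k
    have h3 : 0 ≤ (q k : ℝ) * |q (k + 1) * α - p (k + 1)| :=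
      mul_nonneg (by exact_mod_cast hq0 k) (abs_nonneg _)
    linarith
  -- bounded partial quotients
  obtain ⟨A, hA⟩ := exists_nat_ge (1 / c)
  have haA : ∀ᶠ k in atTop, a k ≤ A := by
    have h1 := hqtend.eventually hbad
    have h2 := (tendsto_add_atTop_nat 1).eventually h1
    filter_upwards [h2] with k hk
    rw [hqn] at hk
    have h3 : |(q (k + 1) : ℝ) * α - round ((q (k + 1) : ℝ) * α)| ≤ |(q (k + 1) : ℝ) * α - p (k + 1)| :=
      round_le' _ _
    have hqpos : (0 : ℝ) ≤ q (k + 1) := by exact_mod_cast hq0 (k + 1)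
    have h4 : c ≤ (q (k + 1) : ℝ) * |(q (k + 1) : ℝ) * α - p (k + 1)| :=
      hk.trans (mul_le_mul_of_nonneg_left h3 hqpos)
    have h5 := ha k
    have h6 := hD1 k
    have ha0 : (0 : ℝ) ≤ a k := by
      have := ha1 k
      exact_mod_cast (by omega : (0 : ℤ) ≤ a k)
    have h7 : (a k : ℝ) * c ≤ 1 := by
      calc (a k : ℝ) * c ≤ a k * ((q (k + 1) : ℝ) * |(q (k + 1) : ℝ) * α - p (k + 1)|) :=
            mul_le_mul_of_nonneg_left h4 ha0
        _ = q (k + 1) * (a k * |(q (k + 1) : ℝ) * α - p (k + 1)|) := by ring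
        _ ≤ q (k + 1) * |q k * α - p k| := mul_le_mul_of_nonneg_left h5 hqpos
        _ ≤ 1 := h6
    have h8 : (a k : ℝ) ≤ A := by
      refine le_trans ?_ hA
      rw [le_div_iff₀ hc]; exact h7
    exact_mod_cast h8
  have hinf : {x : UnitAddCircle | MapClusterPt x atTop
      (fun k => ((q k * β : ℝ) : UnitAddCircle))}.Infinite := by
    intro hfin
    exact hno (relation_of_finite q p a hq0 hq1 hqk ha1 hqr hpr hsgn hdet A haA hfin)
  obtain ⟨N₀, hN₀⟩ := glasner _ hinf ε δ hε hδ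
  refine ⟨N₀, fun N hN T S hS hl => hN₀ N hN T S hS fun l hlS => ?_⟩
  by_contra hcon
  push Not at hcon
  apply hl l hlS
  intro γ
  obtain ⟨x, hx, hxγ⟩ := hcon γ
  have hx' : MapClusterPt (x : UnitAddCircle) atTop
    (fun k => ((q k * β : ℝ) : UnitAddCircle)) := hx
  set d := |(l * x - γ) - round (l * x - γ)| with hd
  set η := (ε - d) / (l + 1) with hη
  have hl0 : (0 : ℝ) < l + 1 := by positivity
  have hηpos : 0 < η := div_pos (by linarith) hl0
  have hfr : ∃ᶠ k : ℕ in atTop, ‖((q k * β : ℝ) : UnitAddCircle) - (x : UnitAddCircle)‖ < η := by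
    have := hx'.frequently (p := fun y => ‖y - (x : UnitAddCircle)‖ < η) (by
      have := Metric.ball_mem_nhds (x : UnitAddCircle) hηpos
      filter_upwards [this] with y hy
      rwa [Metric.mem_ball, dist_eq_norm] at hy)
    exact this
  have hfr2 : ∃ᶠ k : ℕ in atTop, (fun Q : ℕ => (Q : ℝ) * |Q * α - round (Q * α)|
        * |(Q * (l * β) - γ) - round (Q * (l * β) - γ)| < ε) ((q k).toNat) := by
    refine (hfr.and_eventually (eventually_ge_atTop 1)).mono fun k hk => ?_
    obtain ⟨hk1, hk2⟩ := hk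
    obtain ⟨m, rfl⟩ := Nat.exists_eq_add_of_le hk2
    rw [hqn]
    have hqpos : (0 : ℝ) ≤ q (1 + m) := by exact_mod_cast hq0 (1 + m)
    have hqq : (q (1 + m) : ℝ) ≤ q (1 + m + 1) := by
      have h1 := hqr m
      have h2 := ha1 m
      have h3 := hq0 (m + 1)
      have h4 := hq0 m
      have : q (m + 1) ≤ q (m + 2) := by nlinarith
      have e1 : 1 + m = m + 1 := by omega
      have e2 : 1 + m + 1 = m + 2 := by omega
      rw [e1]
      exact_mod_cast this
    have h1 : (q (1 + m) : ℝ) * |(q (1 + m) : ℝ) * α - round ((q (1 + m) : ℝ) * α)| ≤ 1 := by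
      calc _ ≤ (q (1 + m) : ℝ) * |(q (1 + m) : ℝ) * α - p (1 + m)| :=
            mul_le_mul_of_nonneg_left (round_le' _ _) hqpos
        _ ≤ (q (1 + m + 1) : ℝ) * |(q (1 + m) : ℝ) * α - p (1 + m)| :=
            mul_le_mul_of_nonneg_right hqq (abs_nonneg _)
        _ ≤ 1 := hD1 _
    have h2 : |((q (1 + m) : ℝ) * (l * β) - γ) - round ((q (1 + m) : ℝ) * (l * β) - γ)| < ε := by
      rw [← UnitAddCircle.norm_eq]
      have e1 : (((q (1 + m) : ℝ) * (l * β) - γ : ℝ) : UnitAddCircle)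
          = l • (((q (1 + m) * β : ℝ) : UnitAddCircle) - (x : UnitAddCircle))
            + ((l * x - γ : ℝ) : UnitAddCircle) := by
        rw [← AddCircle.coe_sub, ← AddCircle.coe_nsmul, ← AddCircle.coe_add]
        congr 1
        rw [nsmul_eq_mul]; ring
      rw [e1]
      calc _ ≤ ‖l • (((q (1 + m) * β : ℝ) : UnitAddCircle) - (x : UnitAddCircle))‖
            + ‖((l * x - γ : ℝ) : UnitAddCircle)‖ := norm_add_le _ _
        _ ≤ l * ‖((q (1 + m) * β : ℝ) : UnitAddCircle) - (x : UnitAddCircle)‖ + d := by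
            rw [UnitAddCircle.norm_eq (x := (l * x - γ : ℝ))]
            exact add_le_add (norm_nsmul_le) le_rfl
        _ ≤ l * η + d := by gcongr
        _ < (l + 1) * η + d := by linarith
        _ = ε := by rw [hη]; field_simp; ring
    have h3 : 0 ≤ (q (1 + m) : ℝ) * |(q (1 + m) : ℝ) * α - round ((q (1 + m) : ℝ) * α)| :=
      mul_nonneg hqpos (abs_nonneg _)
    calc _ ≤ 1 * |((q (1 + m) : ℝ) * (l * β) - γ) - round ((q (1 + m) : ℝ) * (l * β) - γ)| :=
          mul_le_mul_of_nonneg_right h1 (abs_nonneg _)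
      _ < ε := by rw [one_mul]; exact h2
  exact hqtend.frequently hfr2

end Pool.Agent.H332R2.Lit
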